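import Pool.Agent.H17.SD.Targets

/-! HMP: homogeneous elements of `k[u]`. -/

set_option autoImplicit false

open MvPolynomial SC Pool.Agent.H27.LV
open Pool.Agent.H92.SF Pool.Agent.H3.SF Pool.Agent.H17.SD

namespace Pool.Agent.H20.SFG

section

variable {k F ι : Type} [Field k] [Field F] [Algebra k F] {u : ι → F} {E : Derivation k F F}

theorem eu_prod (hE : ∀ i, E (u i) = u i) (s : ι → ℕ) (T : Finset ι) :
    E (∏ i ∈ T, u i ^ s i) = ((∑ i ∈ T, s i : ℕ) : F) * ∏ i ∈ T, u i ^ s i := by
  classical
  induction T using Finset.induction_on with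
  | empty => simp
  | insert i T hi ih =>
    rw [Finset.prod_insert hi, Finset.sum_insert hi, Derivation.leibniz, ih,
      Derivation.leibniz_pow, hE]
    simp only [smul_eq_mul, nsmul_eq_mul]
    rcases Nat.eq_zero_or_pos (s i) with h0 | h0
    · rw [h0]
      push_cast
      ring
    · obtain ⟨m, hm⟩ : ∃ m, s i = m + 1 := ⟨s i - 1, by omega⟩
      rw [hm]
      simp only [Nat.add_sub_cancel]
      push_cast
      ring

theorem eu_mono (hE : ∀ i, E (u i) = u i) (s : ι →₀ ℕ) (c : k) :
    E (aeval u (monomial s c)) = (s.degree : F) * aeval u (monomial s c) := by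
  rw [aeval_monomial, Finsupp.prod, Derivation.leibniz, Derivation.map_algebraMap, smul_zero,
    add_zero, eu_prod hE (fun i => s i) s.support, smul_eq_mul]
  rw [Finsupp.degree_apply]
  push_cast
  ring

/-- the Euler derivation on `k[u]` -/
theorem eu_aeval (hE : ∀ i, E (u i) = u i) (P : MvPolynomial ι k) :
    E (aeval u P) = ∑ s ∈ P.support, (s.degree : F) * aeval u (monomial s (coeff s P)) := by
  conv_lhs => rw [P.as_sum, map_sum, map_sum]
  exact Finset.sum_congr rfl fun s _ => eu_mono hE s _

theorem wt_one (s : ι →₀ ℕ) : Finsupp.weight (1 : ι → ℕ) s = s.degree := by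
  rw [Finsupp.degree_eq_weight_one]
  rfl

theorem eu_homog (hE : ∀ i, E (u i) = u i) (P : MvPolynomial ι k) (d : ℕ)
    (hP : P.IsHomogeneous d) : E (aeval u P) = (d : F) * aeval u P := by
  rw [eu_aeval hE]
  conv_rhs => rw [P.as_sum, map_sum, Finset.mul_sum]
  apply Finset.sum_congr rfl
  intro s hs
  have h1 : s.degree = d := by
    have h2 := hP (mem_support_iff.1 hs)
    rwa [wt_one] at h2
  rw [h1]

end

theorem pf_HMP : T_HMP := by
  classical
  intro k F ι _ _ _ _ u hu E hE P t hP
  have key : ∀ s, coeff s P ≠ 0 → (s.degree : ℤ) = t := by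
    intro s hs
    by_contra hst
    apply hs
    obtain ⟨Q, hQ⟩ : ∃ Q : MvPolynomial ι k, Q = ∑ s ∈ P.support,
      monomial s (((s.degree : k) - (t : k)) * coeff s P) := ⟨_, rfl⟩
    have h1 : aeval u Q = 0 := by
      have h2 := hP
      unfold Hm at h2
      rw [eu_aeval hE] at h2
      have h3 : (t : F) * aeval u P = ∑ s ∈ P.support, (t : F) *
          aeval u (monomial s (coeff s P)) := by
        conv_lhs => rw [P.as_sum, map_sum, Finset.mul_sum]
      rw [h3] at h2
      rw [hQ, map_sum, ← sub_eq_zero.2 h2, ← Finset.sum_sub_distrib]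
      apply Finset.sum_congr rfl
      intro s _
      have h4 : monomial s (((s.degree : k) - (t : k)) * coeff s P) =
          ((s.degree : k) - (t : k)) • monomial s (coeff s P) := by
        rw [smul_monomial, smul_eq_mul]
      rw [h4, map_smul, Algebra.smul_def, map_sub, map_natCast, map_intCast, sub_mul]
    have h2 : Q = 0 := hu.eq_zero_of_aeval_eq_zero Q h1
    have h3 : coeff s Q = ((s.degree : k) - (t : k)) * coeff s P := by
      rw [hQ, coeff_sum]
      simp only [coeff_monomial]
      rw [Finset.sum_ite_eq' P.support s]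
      split_ifs with h
      · rfl
      · rw [notMem_support_iff.1 h, mul_zero]
    rw [h2, coeff_zero] at h3
    rcases mul_eq_zero.1 h3.symm with h4 | h4
    · exfalso
      apply hst
      have h5 : ((s.degree : ℤ) : k) = ((t : ℤ) : k) := by
        rw [Int.cast_natCast]
        exact sub_eq_zero.1 h4
      exact_mod_cast h5
    · exact h4
  refine ⟨?_, ?_⟩
  · intro d hd s hs
    rw [wt_one]
    have h1 := key s hs
    omega
  · intro ht
    ext s
    rw [coeff_zero]
    by_contra hs
    have h1 := key s hs
    omega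

end Pool.Agent.H20.SFG
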