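import Pool.Agent.H17.SD.Targets

/-! MPH: the coefficients of the minimal polynomial of a homogeneous element are homogeneous. -/

set_option autoImplicit false

open MvPolynomial SC Pool.Agent.H27.LV
open Pool.Agent.H92.SF Pool.Agent.H3.SF Pool.Agent.H17.SD

namespace Pool.Agent.H20.SFG

theorem eu_mem {k F ι : Type} [Field k] [Field F] [Algebra k F] {u : ι → F}
    {E : Derivation k F F} (hE : ∀ i, E (u i) = u i) {x : F} (hx : x ∈ kF k u) :
    E x ∈ kF k u := by
  induction hx using IntermediateField.adjoin_induction with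
  | mem x hx =>
    obtain ⟨i, rfl⟩ := hx
    rw [hE]
    exact IntermediateField.subset_adjoin _ _ ⟨i, rfl⟩
  | algebraMap x =>
    rw [Derivation.map_algebraMap]
    exact zero_mem _
  | add x y hx hy h1 h2 =>
    rw [map_add]
    exact add_mem h1 h2
  | inv x hx h1 =>
    rw [Derivation.leibniz_inv]
    exact (kF k u).mul_mem ((kF k u).neg_mem (pow_mem (inv_mem hx) 2)) h1
  | mul x y hx hy h1 h2 =>
    rw [Derivation.leibniz]
    exact (kF k u).add_mem ((kF k u).mul_mem hx h2) ((kF k u).mul_mem hy h1)

theorem pf_MPH : T_MPH := by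
  intro k F ι _ _ _ _ u E hE a t ha ht i
  have hint : IsIntegral (kF k u) a := ha.isIntegral
  obtain ⟨p, hp⟩ : ∃ p, p = minpoly (kF k u) a := ⟨_, rfl⟩
  obtain ⟨n, hn⟩ : ∃ n, n = p.natDegree := ⟨_, rfl⟩
  have hpm : p.Monic := by rw [hp]; exact minpoly.monic hint
  have hpa : Polynomial.aeval a p = 0 := by rw [hp]; exact minpoly.aeval _ _
  let d : ℕ → kF k u := fun i => ⟨E (p.coeff i : F), eu_mem hE (p.coeff i).2⟩ +
    (((i : ℤ) - n) * t : ℤ) • p.coeff i
  have hd : ∀ i, (d i : F) = E (p.coeff i : F) + (((i : ℤ) - n) * t : ℤ) * (p.coeff i : F) := by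
    intro i
    change E (p.coeff i : F) + (((((i : ℤ) - n) * t : ℤ) • p.coeff i : kF k u) : F) = _
    congr 1
    rw [zsmul_eq_mul]
    push_cast
    rfl
  have hdn : d n = 0 := by
    apply Subtype.ext
    rw [hd]
    have h1 : p.coeff n = 1 := by rw [hn]; exact hpm
    rw [h1]
    simp
  have hdall : ∀ i ≤ n, d i = 0 := by
    obtain ⟨q, hq⟩ : ∃ q : Polynomial (kF k u), q = ∑ i ∈ Finset.range (n + 1),
      Polynomial.monomial i (d i) := ⟨_, rfl⟩
    have hqc : ∀ i ≤ n, q.coeff i = d i := by
      intro i hi
      rw [hq, Polynomial.finsetSum_coeff]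
      simp only [Polynomial.coeff_monomial]
      rw [Finset.sum_ite_eq' (Finset.range (n + 1)) i, if_pos (Finset.mem_range.2 (by omega))]
    have hq0 : q = 0 := by
      by_contra hq0
      have h1 : Polynomial.aeval a q = 0 := by
        have g1 : Polynomial.aeval a p = ∑ i ∈ Finset.range (n + 1), (p.coeff i : F) * a ^ i := by
          rw [Polynomial.aeval_eq_sum_range, ← hn]
          rfl
        have g2 : E (∑ i ∈ Finset.range (n + 1), (p.coeff i : F) * a ^ i) = 0 := by
          rw [← g1, hpa, map_zero]
        have g3 : ∑ i ∈ Finset.range (n + 1), (p.coeff i : F) * a ^ i = 0 := by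
          rw [← g1, hpa]
        rw [hq, map_sum]
        have g4 : ∀ i ∈ Finset.range (n + 1), Polynomial.aeval a (Polynomial.monomial i (d i)) =
            E ((p.coeff i : F) * a ^ i) - (n : F) * (t : F) * ((p.coeff i : F) * a ^ i) := by
          intro i _
          rw [Polynomial.aeval_monomial]
          change (d i : F) * a ^ i = _
          rw [hd, Derivation.leibniz, Derivation.leibniz_pow, ht]
          simp only [smul_eq_mul, nsmul_eq_mul]
          push_cast
          rcases Nat.eq_zero_or_pos i with h0 | h0
          · rw [h0]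
            push_cast
            ring
          · obtain ⟨m, hm⟩ : ∃ m, i = m + 1 := ⟨i - 1, by omega⟩
            rw [hm]
            simp only [Nat.add_sub_cancel]
            push_cast
            ring
        rw [Finset.sum_congr rfl g4, Finset.sum_sub_distrib, ← map_sum, g2, ← Finset.mul_sum, g3,
          mul_zero, sub_zero]
      have h2 := minpoly.degree_le_of_ne_zero (kF k u) a hq0 h1
      rw [← hp, Polynomial.degree_eq_natDegree hpm.ne_zero, ← hn] at h2
      have h3 : q.degree < n := by
        rw [Polynomial.degree_lt_iff_coeff_zero]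
        intro m hm
        rcases Nat.eq_or_lt_of_le hm with h4 | h4
        · rw [← h4, hqc n le_rfl, hdn]
        · rw [hq, Polynomial.finsetSum_coeff]
          apply Finset.sum_eq_zero
          intro i hi
          rw [Polynomial.coeff_monomial, if_neg]
          have := Finset.mem_range.1 hi
          omega
      exact absurd h2 (not_le.2 h3)
    intro i hi
    rw [← hqc i hi, hq0, Polynomial.coeff_zero]
  unfold Hm
  rw [← hp]
  by_cases hi : i ≤ n
  · have h1 := hdall i hi
    have h2 := hd i
    rw [h1] at h2
    rw [← hn]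
    have h3 : ((0 : kF k u) : F) = 0 := rfl
    rw [h3] at h2
    push_cast at h2 ⊢
    linear_combination -h2
  · have h1 : p.coeff i = 0 := Polynomial.coeff_eq_zero_of_natDegree_lt (by omega)
    rw [h1]
    simp

end Pool.Agent.H20.SFG
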