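import Pool.Agent.H20.SFG.HMP

/-! BBD: dimensions of the spaces of homogeneous integral elements. -/

set_option autoImplicit false

open MvPolynomial SC Pool.Agent.H27.LV
open Pool.Agent.H92.SF Pool.Agent.H3.SF Pool.Agent.H17.SD

namespace Pool.Agent.H20.SFG

theorem eu_u {k F : Type} [Field k] [Field F] [Algebra k F] {u : Fin 3 → F}
    {dd : Fin 3 → Derivation k F F} (hdd : ∀ l j, dd l (u j) = if l = j then 1 else 0)
    (l : Fin 3) : eu u dd (u l) = u l := by
  unfold eu
  rw [Fin.sum_univ_three]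
  simp only [Derivation.add_apply, Derivation.smul_apply, smul_eq_mul, hdd]
  fin_cases l <;> simp

theorem itg_u {k F ι : Type} [Field k] [Field F] [Algebra k F] (u : ι → F) (l : ι) :
    Itg k u (u l) := by
  have h := ((aeval u : MvPolynomial ι k →ₐ[k] F) : MvPolynomial ι k →+* F).isIntegralElem_map
      (x := X l)
  simpa [Itg] using h

theorem pf_BBD (h1 : T_ITA) (h2 : T_MPC) (h3 : T_MPH) (h4 : T_HMP) (h5 : T_DMB) : T_BBD := by
  intro k F _ _ _ _ u θ dd J j0 hu hfd hθ hθi hdd hEθ hJh hJ0 hJ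
  have hE := eu_u hdd
  obtain ⟨E, hEd⟩ : ∃ E, E = eu u dd := ⟨_, rfl⟩
  rw [← hEd] at hE hEθ ⊢
  have hJa0 : aeval u J ≠ 0 := fun h => hJ0 (hu.eq_zero_of_aeval_eq_zero J h)
  have c4 : ∀ (t : ℤ) (a : F), a ∈ BB k u E t → aeval u J * a ∈ Gr (PB k u θ) E (t + j0) := by
    intro t a ha
    refine ⟨hJ a ha.1, ?_⟩
    have g1 := ha.2
    unfold Hm at *
    rw [Derivation.leibniz, eu_homog hE J j0 hJh, g1]
    simp only [smul_eq_mul]
    push_cast
    ring
  refine ⟨?_, ?_, ?_, c4⟩
  · intro t ht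
    rw [Submodule.eq_bot_iff]
    intro a ha
    have hint : IsIntegral (kF k u) a := Algebra.IsIntegral.isIntegral a
    obtain ⟨P, hP⟩ := h2 k F (Fin 3) u hu a ha.1 0
    have g1 := h3 k F (Fin 3) u E hE a t hint.isAlgebraic ha.2 0
    rw [hP] at g1
    have g2 := (h4 k F (Fin 3) u hu E hE P _ g1).2 (by
      have g3 : 0 < (minpoly (kF k u) a).natDegree := minpoly.natDegree_pos hint
      have g4 : (0 : ℤ) < ((minpoly (kF k u) a).natDegree : ℤ) - (0 : ℕ) := by
        push_cast
        omega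
      exact mul_neg_of_pos_of_neg g4 ht)
    rw [g2, map_zero] at hP
    have g5 : (minpoly (kF k u) a).coeff 0 = 0 := Subtype.ext hP
    exact (minpoly.coeff_zero_eq_zero hint).1 g5
  · intro t
    have hfin : Module.Finite k (Gr (PB k u θ) E (t + j0)) := by
      obtain ⟨g1, g2⟩ := h5 k F u θ E hu hfd hθ hθi hE hEθ
      rcases lt_or_ge (t + j0) 0 with h0 | h0
      · rw [g1 _ h0]
        infer_instance
      · obtain ⟨n, hn⟩ : ∃ n : ℕ, (n : ℤ) = t + j0 := ⟨(t + j0).toNat, Int.toNat_of_nonneg h0⟩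
        rw [← hn]
        exact (g2 n).1
    let f : BB k u E t →ₗ[k] Gr (PB k u θ) E (t + j0) :=
      { toFun := fun a => ⟨aeval u J * a, c4 t a a.2⟩
        map_add' := fun a b => Subtype.ext (mul_add _ _ _)
        map_smul' := fun c a => Subtype.ext (mul_smul_comm _ _ _) }
    have hf : Function.Injective f := by
      intro a b hab
      have g1 : aeval u J * (a : F) = aeval u J * (b : F) := congrArg Subtype.val hab
      exact Subtype.ext (mul_left_cancel₀ hJa0 g1)
    exact Module.Finite.of_injective f hf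
  · intro t a ha
    refine ⟨?_, ha.2⟩
    have g1 : PB k u θ ≤ Bb k u := by
      apply Algebra.adjoin_le
      intro x hx
      rcases hx with rfl | ⟨l, rfl⟩
      · exact hθi
      · exact itg_u u l
    exact g1 ha.1

end Pool.Agent.H20.SFG
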