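import Pool.Agent.H17.SD.Targets

/-! MPC: the minimal polynomial of an integral element has coefficients in `k[u]`. -/

set_option autoImplicit false

open MvPolynomial SC Pool.Agent.H27.LV
open Pool.Agent.H92.SF Pool.Agent.H3.SF Pool.Agent.H17.SD

namespace Pool.Agent.H20.SFG

open scoped IntermediateField.algebraAdjoinAdjoin in
theorem pf_MPC (h1 : T_ITA) : T_MPC := by
  intro k F ι _ _ _ u hu a ha i
  have hint : IsIntegral (PA k u) a := (h1 k F ι u a).1 ha
  have hic : IsIntegrallyClosed (PA k u) :=
    IsIntegrallyClosed.of_equiv hu.aevalEquiv.toRingEquiv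
  have h2 := minpoly.isIntegrallyClosed_eq_field_fractions' (kF k u) hint
  have h3 : ((minpoly (kF k u) a).coeff i : F) = ((minpoly (PA k u) a).coeff i : F) := by
    rw [h2, Polynomial.coeff_map]
    rfl
  have h4 : ((minpoly (PA k u) a).coeff i : F) ∈ Algebra.adjoin k (Set.range u) :=
    ((minpoly (PA k u) a).coeff i).2
  rw [← h3, Algebra.adjoin_range_eq_range_aeval] at h4
  obtain ⟨P, hP⟩ := h4
  exact ⟨P, hP.symm⟩

end Pool.Agent.H20.SFG
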